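import Pool.Agent.W290.LG.Stm2

/-!
# Systems of constraints for the zeros of a polynomial
-/

set_option autoImplicit false

namespace Pool.Agent.W303.LG

open Pool.Agent Pool.Agent.NPC Pool.Agent.W290.LG

/-- The system `S` computes `P`, with output `o`. -/
def Cmp {n : ℕ} (P : MvPolynomial (Fin n) ℤ) (S : List ER.Con) (o : ℕ) : Prop :=
  ∀ (K : Type) [Field K],
    (∀ v : ℕ → K, (∀ c ∈ S, HoldsK v c) →
      v o = MvPolynomial.aeval (fun i : Fin n => v (2 * (i : ℕ))) P) ∧
    ∀ a : ℕ → K, ∃ v : ℕ → K, (∀ c ∈ S, HoldsK v c) ∧ ∀ i, v (2 * i) = a i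

/-- renumbering of a constraint -/
def rn (f : ℕ → ℕ) : ER.Con → ER.Con
  | .one i => .one (f i)
  | .add i j k => .add (f i) (f j) (f k)
  | .mul i j k => .mul (f i) (f j) (f k)

theorem holds_rn {K : Type} [Field K] (f : ℕ → ℕ) (v : ℕ → K) (c : ER.Con) :
    HoldsK v (rn f c) ↔ HoldsK (fun i => v (f i)) c := by
  cases c <;> exact Iff.rfl

/-- the renumbering -/
def rr (t : ℕ) (k : ℕ) : ℕ := if k % 2 = 0 then k else 2 * (3 * (k / 2) + t) + 1

theorem rr_even (t i : ℕ) : rr t (2 * i) = 2 * i := by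
  unfold rr
  rw [if_pos (by omega)]

theorem rr_odd (t i : ℕ) : rr t (2 * i + 1) = 2 * (3 * i + t) + 1 := by
  unfold rr
  rw [if_neg (by omega)]
  have : (2 * i + 1) / 2 = i := by omega
  rw [this]

theorem good_bin {n : ℕ} (P Q R : MvPolynomial (Fin n) ℤ) (cc : ℕ → ℕ → ℕ → ER.Con)
    (g : ∀ (K : Type) [Field K], K → K → K)
    (h1 : ∀ (K : Type) [Field K] (v : ℕ → K) (i j k : ℕ),
      HoldsK v (cc i j k) ↔ g K (v i) (v j) = v k)
    (h2 : ∀ (K : Type) [Field K] (x : Fin n → K),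
      MvPolynomial.aeval x R = g K (MvPolynomial.aeval x P) (MvPolynomial.aeval x Q))
    (hP : ∃ S o, Cmp P S o) (hQ : ∃ S o, Cmp Q S o) : ∃ S o, Cmp R S o := by
  obtain ⟨S₁, o₁, h₁⟩ := hP
  obtain ⟨S₂, o₂, h₂⟩ := hQ
  refine ⟨S₁.map (rn (rr 0)) ++ (S₂.map (rn (rr 1)) ++ [cc (rr 0 o₁) (rr 1 o₂) 5]), 5,
    fun K _ => ⟨fun v hv => ?_, fun a => ?_⟩⟩
  · have e1 : ∀ c ∈ S₁, HoldsK (fun i => v (rr 0 i)) c := fun c hc =>
      (holds_rn _ _ _).1 (hv _ (List.mem_append_left _ (List.mem_map_of_mem hc)))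
    have e2 : ∀ c ∈ S₂, HoldsK (fun i => v (rr 1 i)) c := fun c hc =>
      (holds_rn _ _ _).1 (hv _ (List.mem_append_right _
        (List.mem_append_left _ (List.mem_map_of_mem hc))))
    have e3 := (h1 K v _ _ _).1 (hv _ (List.mem_append_right _
        (List.mem_append_right _ (List.mem_singleton.2 rfl))))
    have f1 := (h₁ K).1 _ e1
    have f2 := (h₂ K).1 _ e2
    simp only [rr_even] at f1 f2
    rw [← e3, f1, f2, h2]
  · obtain ⟨v₁, a₁, b₁⟩ := (h₁ K).2 a
    obtain ⟨v₂, a₂, b₂⟩ := (h₂ K).2 a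
    let v : ℕ → K := fun k => if k % 2 = 0 then a (k / 2) else
      if (k / 2) % 3 = 0 then v₁ (2 * (k / 2 / 3) + 1) else
        if (k / 2) % 3 = 1 then v₂ (2 * (k / 2 / 3) + 1) else g K (v₁ o₁) (v₂ o₂)
    have c1 : (fun i => v (rr 0 i)) = v₁ := by
      funext k
      rcases Nat.even_or_odd' k with ⟨j, rfl | rfl⟩
      · rw [rr_even, b₁]
        change (if (2 * j) % 2 = 0 then a (2 * j / 2) else _) = _
        rw [if_pos (by omega)]
        congr 1
        omega
      · rw [rr_odd]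
        change (if (2 * (3 * j + 0) + 1) % 2 = 0 then _ else
          if ((2 * (3 * j + 0) + 1) / 2) % 3 = 0 then
            v₁ (2 * ((2 * (3 * j + 0) + 1) / 2 / 3) + 1) else _) = _
        rw [if_neg (by omega), if_pos (by omega)]
        congr 1
        omega
    have c2 : (fun i => v (rr 1 i)) = v₂ := by
      funext k
      rcases Nat.even_or_odd' k with ⟨j, rfl | rfl⟩
      · rw [rr_even, b₂]
        change (if (2 * j) % 2 = 0 then a (2 * j / 2) else _) = _
        rw [if_pos (by omega)]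
        congr 1
        omega
      · rw [rr_odd]
        change (if (2 * (3 * j + 1) + 1) % 2 = 0 then _ else
          if ((2 * (3 * j + 1) + 1) / 2) % 3 = 0 then _ else
            if ((2 * (3 * j + 1) + 1) / 2) % 3 = 1 then
              v₂ (2 * ((2 * (3 * j + 1) + 1) / 2 / 3) + 1) else _) = _
        rw [if_neg (by omega), if_neg (by omega), if_pos (by omega)]
        congr 1
        omega
    refine ⟨v, fun c hc => ?_, fun i => ?_⟩
    · rw [List.mem_append, List.mem_append] at hc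
      rcases hc with hc | hc | hc
      · obtain ⟨c', hc', rfl⟩ := List.mem_map.1 hc
        rw [holds_rn, c1]
        exact a₁ c' hc'
      · obtain ⟨c', hc', rfl⟩ := List.mem_map.1 hc
        rw [holds_rn, c2]
        exact a₂ c' hc'
      · rw [List.mem_singleton] at hc
        subst hc
        rw [h1]
        have d1 : v (rr 0 o₁) = v₁ o₁ := congrFun c1 o₁
        have d2 : v (rr 1 o₂) = v₂ o₂ := congrFun c2 o₂
        rw [d1, d2]
        rfl
    · change (if (2 * i) % 2 = 0 then a (2 * i / 2) else _) = _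
      rw [if_pos (by omega)]
      congr 1
      omega

theorem good_add {n : ℕ} (P Q : MvPolynomial (Fin n) ℤ)
    (hP : ∃ S o, Cmp P S o) (hQ : ∃ S o, Cmp Q S o) : ∃ S o, Cmp (P + Q) S o :=
  good_bin P Q (P + Q) ER.Con.add (fun K _ x y => x + y) (fun _ _ _ _ _ _ => Iff.rfl)
    (fun _ _ _ => map_add _ _ _) hP hQ

theorem good_mul {n : ℕ} (P Q : MvPolynomial (Fin n) ℤ)
    (hP : ∃ S o, Cmp P S o) (hQ : ∃ S o, Cmp Q S o) : ∃ S o, Cmp (P * Q) S o :=
  good_bin P Q (P * Q) ER.Con.mul (fun K _ x y => x * y) (fun _ _ _ _ _ _ => Iff.rfl)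
    (fun _ _ _ => map_mul _ _ _) hP hQ

theorem good_X {n : ℕ} (i : Fin n) : ∃ S o, Cmp (MvPolynomial.X i) S o := by
  refine ⟨[], 2 * (i : ℕ), fun K _ => ⟨fun v _ => ?_, fun a => ?_⟩⟩
  · rw [MvPolynomial.aeval_X]
  · refine ⟨fun k => a (k / 2), fun c hc => ?_, fun i => ?_⟩
    · simp at hc
    · change a (2 * i / 2) = a i
      congr 1
      omega

theorem good_zero {n : ℕ} : ∃ S o, Cmp (MvPolynomial.C 0 : MvPolynomial (Fin n) ℤ) S o := by
  refine ⟨[ER.Con.add 1 1 1], 1, fun K _ => ⟨fun v hv => ?_, fun a => ?_⟩⟩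
  · have h : v 1 + v 1 = v 1 := hv _ (List.mem_singleton.2 rfl)
    rw [map_zero, map_zero]
    exact left_eq_add.1 h.symm
  · refine ⟨fun k => if k % 2 = 0 then a (k / 2) else 0, fun c hc => ?_, fun i => ?_⟩
    · rw [List.mem_singleton] at hc
      subst hc
      change (if 1 % 2 = 0 then a (1 / 2) else (0 : K)) + (if 1 % 2 = 0 then a (1 / 2) else 0) =
        if 1 % 2 = 0 then a (1 / 2) else 0
      rw [if_neg (by omega), add_zero]
    · change (if (2 * i) % 2 = 0 then a (2 * i / 2) else _) = _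
      rw [if_pos (by omega)]
      congr 1
      omega

theorem good_one {n : ℕ} : ∃ S o, Cmp (MvPolynomial.C 1 : MvPolynomial (Fin n) ℤ) S o := by
  refine ⟨[ER.Con.one 1], 1, fun K _ => ⟨fun v hv => ?_, fun a => ?_⟩⟩
  · have h : v 1 = 1 := hv _ (List.mem_singleton.2 rfl)
    rw [map_one, map_one]
    exact h
  · refine ⟨fun k => if k % 2 = 0 then a (k / 2) else 1, fun c hc => ?_, fun i => ?_⟩
    · rw [List.mem_singleton] at hc
      subst hc
      change (if 1 % 2 = 0 then a (1 / 2) else (1 : K)) = 1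
      rw [if_neg (by omega)]
    · change (if (2 * i) % 2 = 0 then a (2 * i / 2) else _) = _
      rw [if_pos (by omega)]
      congr 1
      omega

theorem good_neg_one {n : ℕ} :
    ∃ S o, Cmp (MvPolynomial.C (-1) : MvPolynomial (Fin n) ℤ) S o := by
  refine ⟨[ER.Con.one 1, ER.Con.add 3 3 3, ER.Con.add 5 1 3], 5,
    fun K _ => ⟨fun v hv => ?_, fun a => ?_⟩⟩
  · have h1 : v 1 = 1 := hv (ER.Con.one 1) (by simp)
    have h2 : v 3 + v 3 = v 3 := hv (ER.Con.add 3 3 3) (by simp)
    have h3 : v 5 + v 1 = v 3 := hv (ER.Con.add 5 1 3) (by simp)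
    have h4 : v 3 = 0 := left_eq_add.1 h2.symm
    rw [h1, h4] at h3
    rw [map_neg, map_neg, map_one, map_one]
    exact eq_neg_of_add_eq_zero_left h3
  · refine ⟨fun k => if k % 2 = 0 then a (k / 2) else if k = 1 then 1 else
      if k = 3 then 0 else -1, fun c hc => ?_, fun i => ?_⟩
    · simp only [List.mem_cons, List.not_mem_nil, or_false] at hc
      rcases hc with rfl | rfl | rfl <;> simp [HoldsK]
    · change (if (2 * i) % 2 = 0 then a (2 * i / 2) else _) = _
      rw [if_pos (by omega)]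
      congr 1
      omega

theorem good_C {n : ℕ} (m : ℤ) : ∃ S o, Cmp (MvPolynomial.C m : MvPolynomial (Fin n) ℤ) S o := by
  induction m using Int.induction_on with
  | zero => exact good_zero
  | succ k ih =>
    rw [map_add]
    exact good_add _ _ ih good_one
  | pred k ih =>
    have h : (-(k : ℤ) - 1) = -(k : ℤ) + (-1) := by ring
    rw [h, map_add]
    exact good_add _ _ ih good_neg_one

theorem good {n : ℕ} (P : MvPolynomial (Fin n) ℤ) : ∃ S o, Cmp P S o := by
  induction P using MvPolynomial.induction_on with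
  | C a => exact good_C a
  | add p q hp hq => exact good_add p q hp hq
  | mul_X p i hp => exact good_mul p _ hp (good_X i)

theorem t_G : Pool.Agent.W290.LG.S_G := by
  intro n P
  obtain ⟨S, o, h⟩ := good P
  refine ⟨S ++ [ER.Con.add o o o], fun K _ => ⟨?_, ?_⟩⟩
  · rintro ⟨v, hv⟩
    refine ⟨fun i => v (2 * (i : ℕ)), ?_⟩
    rw [← (h K).1 v (fun c hc => hv c (List.mem_append_left _ hc))]
    have h1 : v o + v o = v o := hv _ (List.mem_append_right _ (List.mem_singleton.2 rfl))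
    exact left_eq_add.1 h1.symm
  · rintro ⟨x, hx⟩
    obtain ⟨v, h1, h2⟩ := (h K).2 (fun i => if hi : i < n then x ⟨i, hi⟩ else 0)
    have h3 : (fun i : Fin n => v (2 * (i : ℕ))) = x := by
      funext i
      rw [h2, dif_pos i.2]
    have h4 : v o = 0 := by
      rw [(h K).1 v h1, h3, hx]
    refine ⟨v, fun c hc => ?_⟩
    rw [List.mem_append, List.mem_singleton] at hc
    rcases hc with hc | rfl
    · exact h1 c hc
    · change v o + v o = v o
      rw [h4, add_zero]

end Pool.Agent.W303.LG
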